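import Pool.Agent.Helper82_RS.Faith

/-!
# Squad PW (`MP_b2b50d_lc`): three tools on algebraic independence
-/

set_option autoImplicit false

namespace Pool.Agent.PW.H26

open MvPolynomial

/-- ALG1.  `r` algebraically independent polynomials in `r` variables can be sent to any `r`
algebraically independent elements of an algebraically closed field, by an injective
homomorphism. -/
theorem exists_embedding {E K s : Type} [Field E] [Field K] [Algebra E K] [IsAlgClosed K]
    [Fintype s] {r : ℕ} (hr : Fintype.card s = r) (U : Fin r → MvPolynomial s E)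
    (hU : AlgebraicIndependent E U) (σ : Fin r → K) (hσ : AlgebraicIndependent E σ) :
    ∃ ι : MvPolynomial s E →ₐ[E] K, Function.Injective ι ∧ ∀ a, ι (U a) = σ a := by
  classical
  have hb : IsTranscendenceBasis E U := by
    refine hU.isTranscendenceBasis_of_trdeg_le_of_finite ?_
    rw [MvPolynomial.trdeg_of_isDomain, Cardinal.mk_fintype, Cardinal.mk_fintype, hr,
      Fintype.card_fin, Cardinal.lift_natCast]
  let i1 : Algebra (MvPolynomial (Fin r) E) (MvPolynomial s E) := (aeval U).toRingHom.toAlgebra
  let i2 : Algebra (MvPolynomial (Fin r) E) K := (aeval σ).toRingHom.toAlgebra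
  have : IsScalarTower E (MvPolynomial (Fin r) E) (MvPolynomial s E) :=
    IsScalarTower.of_algebraMap_eq fun x => by
      change C x = aeval U (C x)
      rw [aeval_C]
      rfl
  have : IsScalarTower E (MvPolynomial (Fin r) E) K :=
    IsScalarTower.of_algebraMap_eq fun x => by
      change algebraMap E K x = aeval σ (C x)
      rw [aeval_C]
  have inj1 : Function.Injective (algebraMap (MvPolynomial (Fin r) E) (MvPolynomial s E)) := hU
  have inj2 : Function.Injective (algebraMap (MvPolynomial (Fin r) E) K) := hσ
  have : FaithfulSMul (MvPolynomial (Fin r) E) (MvPolynomial s E) :=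
    (faithfulSMul_iff_algebraMap_injective _ _).2 inj1
  have : FaithfulSMul (MvPolynomial (Fin r) E) K :=
    (faithfulSMul_iff_algebraMap_injective _ _).2 inj2
  have : Module.IsTorsionFree (MvPolynomial (Fin r) E) (MvPolynomial s E) := inferInstance
  have : Module.IsTorsionFree (MvPolynomial (Fin r) E) K := inferInstance
  have halg : Algebra.IsAlgebraic (MvPolynomial (Fin r) E) (MvPolynomial s E) := by
    rw [hb.isAlgebraic_iff]
    intro a
    have h1 : U a = algebraMap (MvPolynomial (Fin r) E) (MvPolynomial s E) (X a) := by
      change U a = aeval U (X a)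
      rw [aeval_X]
    rw [h1]
    exact isAlgebraic_algebraMap _
  let ι : MvPolynomial s E →ₐ[MvPolynomial (Fin r) E] K := IsAlgClosed.lift
  refine ⟨ι.restrictScalars E, ?_, ?_⟩
  · rw [injective_iff_map_eq_zero]
    intro x hx
    by_contra hx0
    refine Pool.Agent.RS.H82.map_ne_zero_of_algebraic (ι.restrictScalars E) (aeval U).range ?_ x ?_
      hx0 hx
    · rintro _ ⟨p, rfl⟩ hp
      have h2 : ι (algebraMap (MvPolynomial (Fin r) E) (MvPolynomial s E) p) = 0 := hp
      rw [AlgHom.commutes] at h2
      have h3 : p = 0 := inj2 (by rw [h2, map_zero])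
      rw [h3]
      exact map_zero _
    · have h4 := halg.isAlgebraic x
      exact h4.ringHom_of_comp_eq (aeval U).rangeRestrict.toRingHom (RingHom.id _)
        (fun _ _ h => hU (congrArg Subtype.val h)) rfl
  · intro a
    have h1 : U a = algebraMap (MvPolynomial (Fin r) E) (MvPolynomial s E) (X a) := by
      change U a = aeval U (X a)
      rw [aeval_X]
    change ι (U a) = σ a
    rw [h1, AlgHom.commutes]
    change aeval σ (X a) = σ a
    rw [aeval_X]

/-- ALG2.  Counting: if the members of an algebraically independent family `f_1, ..., f_n` are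
polynomials in `t_1, ..., t_n`, then `t_1, ..., t_n` are algebraically independent. -/
theorem independent_of_mem_adjoin {E K ι κ : Type} [Field E] [Field K] [Algebra E K] [Fintype ι]
    [Fintype κ] (hc : Fintype.card κ ≤ Fintype.card ι) (f : ι → K) (hf : AlgebraicIndependent E f)
    (t : κ → K) (ht : ∀ i, f i ∈ Algebra.adjoin E (Set.range t)) : AlgebraicIndependent E t := by
  classical
  let A' := Algebra.adjoin E (Set.range t)
  let f' : ι → A' := fun i => ⟨f i, ht i⟩
  let t' : κ → A' := fun k => ⟨t k, Algebra.subset_adjoin ⟨k, rfl⟩⟩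
  have hf' : AlgebraicIndependent E f' := hf.of_comp A'.val
  have htop : Algebra.adjoin E (Set.range t') = ⊤ := by
    have h1 : Set.range t' = ((↑) : A' → K) ⁻¹' Set.range t := by
      ext x
      constructor
      · rintro ⟨k, rfl⟩
        exact ⟨k, rfl⟩
      · rintro ⟨k, hk⟩
        exact ⟨k, Subtype.ext hk⟩
    rw [h1]
    exact Algebra.adjoin_adjoin_coe_preimage
  have : Algebra.IsAlgebraic (Algebra.adjoin E (Set.range t')) A' := by
    rw [htop]
    refine ⟨fun x => ?_⟩
    exact isAlgebraic_algebraMap (⟨x, Algebra.mem_top⟩ : (⊤ : Subalgebra E A'))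
  have hb : IsTranscendenceBasis E t' := by
    refine Algebra.IsAlgebraic.isTranscendenceBasis_of_le_trdeg_of_finite E t' ?_
    refine le_trans ?_ hf'.cardinalMk_le_trdeg
    rw [Cardinal.mk_fintype, Cardinal.mk_fintype]
    exact_mod_cast hc
  exact hb.1.map' (f := A'.val) Subtype.val_injective

/-- ALG3.  Algebraic independence through a homomorphism into polynomials with a nonzero Jacobian
minor. -/
theorem independent_of_minor {E B I : Type} [Field E] [CharZero E] [CommRing B] [Algebra E B]
    {r : ℕ} (π : B →ₐ[E] MvPolynomial I E) (f : Fin r → B) (j : Fin r → I)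
    (h : (Matrix.of fun l i => pderiv (j i) (π (f l))).det ≠ 0) : AlgebraicIndependent E f :=
  AlgebraicIndependent.of_comp (x := f) π (Pool.Agent.RS.H82.algebraicIndependent_of_minor _ j h)

end Pool.Agent.PW.H26
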