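import Pool.Agent.Helper26_PW.Point
import Pool.Agent.PW.StmtsB

/-!
# Squad PW (`MP_b2b50d_lc`), row EPS: the point exists
-/

set_option autoImplicit false

namespace Pool.Agent.PW.H26

open MvPolynomial

open Pool.Agent.RS (FF io)

/-- Row EPS from row PIV. -/
theorem eps (piv : PivStmt) : EpsStmt := by
  intro E D _ _ _ _ _ ζ m ρ N y GM J1 z hζ hli hy hrob hGM hz hzJ hN hm
  have hcard : (J1 ∪ Finset.univ.image z).card + ρ ≤ N := by
    refine le_trans ?_ hN
    refine Nat.add_le_add_right ((Finset.card_union_le _ _).trans ?_) _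
    refine Nat.add_le_add_left (Finset.card_image_le.trans ?_) _
    rw [Finset.card_univ, Fintype.card_fin]
  obtain ⟨z', hz', hz'J⟩ := piv E ρ N y GM hli hy hrob (J1 ∪ Finset.univ.image z)
    (hGM.trans Finset.subset_union_left) hcard
  obtain ⟨Om, hOm, j, e, hj, h1, h2, h3⟩ :=
    exists_point y J1 GM hGM hy z hz hzJ z' hz' hz'J m hm ζ hζ
  let alg : Algebra E Om := (j.comp (algebraMap E (MvPolynomial ℕ D))).toAlgebra
  let jE : MvPolynomial ℕ D →ₐ[E] Om := { j with commutes' := fun _ => rfl }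
  let eE : MvPolynomial ℕ D →ₐ[E] Om := { e with commutes' := fun r => h1 _ }
  refine ⟨Om, hOm, alg, jE, eE, hj, h1, fun i hi => h2 i fun b hb => hi ⟨b, hb.symm⟩, h3⟩

end Pool.Agent.PW.H26
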