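import Pool.Agent.PW.StmtsA

/-!
# Squad PW (`MP_b2b50d_lc`), row RID: relations between inverses of products
-/

set_option autoImplicit false

namespace Pool.Agent.PW.H26

open MvPolynomial

open Pool.Agent.RS (FF io)

/-- Clearing denominators. -/
theorem sum_inv_mul_prod {F ι : Type} [Field F] [Fintype ι] [DecidableEq ι] (u c : ι → F)
    (hu : ∀ t, u t ≠ 0) :
    (∏ t, u t) * ∑ t, c t * (u t)⁻¹ = ∑ t, c t * ∏ t' ∈ Finset.univ.erase t, u t' := by
  rw [Finset.mul_sum]
  refine Finset.sum_congr rfl fun t _ => ?_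
  rw [← Finset.mul_prod_erase Finset.univ u (Finset.mem_univ t)]
  have := hu t
  field_simp

/-- Row RID. -/
theorem rid : RidStmt := by
  classical
  intro E _ _ ρ y hy S hS ι _ b c hb hθ
  obtain ⟨Λ, hΛ⟩ := LinearMap.exists_leftInverse_of_injective (Fintype.linearCombination E y)
    (LinearMap.ker_eq_bot.2 hy.fintypeLinearCombination_injective)
  have hΛg : ∀ g ∈ Submodule.span E (Set.range y), ∑ a, Λ g a • y a = g := by
    intro g hg
    obtain ⟨κ, rfl⟩ := (Submodule.mem_span_range_iff_exists_fun E).1 hg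
    have h1 : Λ (∑ a, κ a • y a) = κ := LinearMap.congr_fun hΛ κ
    rw [h1]
  let ℓ : MvPolynomial ℕ E → MvPolynomial (Fin ρ) E := fun g => ∑ a, C (Λ g a) * X a
  have hℓ1 : ∀ g ∈ Submodule.span E (Set.range y), aeval y (ℓ g) = g := by
    intro g hg
    conv_rhs => rw [← hΛg g hg]
    change aeval y (∑ a, C (Λ g a) * X a) = _
    rw [map_sum]
    refine Finset.sum_congr rfl fun a _ => ?_
    rw [map_mul, aeval_C, aeval_X, Algebra.smul_def]
  let θ : (Fin ρ → E) → (MvPolynomial ℕ E →ₗ[E] E) := fun p =>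
    (Fintype.linearCombination E p).comp Λ
  have hθℓ : ∀ p g, θ p g = eval p (ℓ g) := by
    intro p g
    change (Fintype.linearCombination E p) (Λ g) = eval p (∑ a, C (Λ g a) * X a)
    rw [Fintype.linearCombination_apply, map_sum]
    refine Finset.sum_congr rfl fun a _ => ?_
    rw [map_mul, eval_C, eval_X, smul_eq_mul]
  have hlist : ∀ (p : Fin ρ → E) (l : List (MvPolynomial ℕ E)),
      (l.map (θ p)).prod = eval p (l.map ℓ).prod := by
    intro p l
    induction l with
    | nil => simp
    | cons g l ih => rw [List.map_cons, List.map_cons, List.prod_cons, List.prod_cons, map_mul,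
        ih, hθℓ]
  have hlist2 : ∀ l : List (MvPolynomial ℕ E), (∀ g ∈ l, g ∈ S) →
      aeval y (l.map ℓ).prod = l.prod := by
    intro l hl
    induction l with
    | nil => simp
    | cons g l ih =>
      rw [List.map_cons, List.prod_cons, List.prod_cons, map_mul,
        ih fun g' hg' => hl g' (List.mem_cons_of_mem _ hg'),
        hℓ1 g (hS g (hl g List.mem_cons_self)).2]
  have hne : ∀ l : List (MvPolynomial ℕ E), (∀ g ∈ l, g ∈ S) → l.prod ≠ 0 := by
    intro l hl h0
    rw [List.prod_eq_zero_iff] at h0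
    exact (hS 0 (hl 0 h0)).1 rfl
  have hSne : (∏ g ∈ S, ℓ g) ≠ 0 := by
    rw [Finset.prod_ne_zero_iff]
    intro g hg h0
    have h1 := hℓ1 g (hS g hg).2
    rw [h0, map_zero] at h1
    exact (hS g hg).1 h1.symm
  have hP : ∑ t, C (c t) * ∏ t' ∈ Finset.univ.erase t, ((b t').map ℓ).prod = 0 := by
    refine (mul_eq_zero.1 (?_ : _ * ∏ g ∈ S, ℓ g = 0)).resolve_right hSne
    refine MvPolynomial.funext fun p => ?_
    rw [map_zero, map_mul]
    by_cases hp : ∀ g ∈ S, θ p g ≠ 0
    · have h1 := hθ (θ p) hp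
      have h2 : ∀ t, ((b t).map (θ p)).prod ≠ 0 := by
        intro t h0
        rw [List.prod_eq_zero_iff, List.mem_map] at h0
        obtain ⟨g, hg, hg0⟩ := h0
        exact hp g (hb t g hg) hg0
      have h3 := sum_inv_mul_prod (fun t => ((b t).map (θ p)).prod) c h2
      rw [h1, mul_zero] at h3
      have h4 : eval p (∑ t, C (c t) * ∏ t' ∈ Finset.univ.erase t, ((b t').map ℓ).prod) =
          ∑ t, c t * ∏ t' ∈ Finset.univ.erase t, ((b t').map (θ p)).prod := by
        rw [map_sum]
        refine Finset.sum_congr rfl fun t _ => ?_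
        rw [map_mul, eval_C, map_prod]
        congr 1
        exact Finset.prod_congr rfl fun t' _ => (hlist p (b t')).symm
      rw [h4, ← h3, zero_mul]
    · push Not at hp
      obtain ⟨g, hg, hg0⟩ := hp
      rw [map_prod, Finset.prod_eq_zero hg, mul_zero]
      rw [← hθℓ, hg0]
  have h1 := congrArg (fun q => io E (aeval y q)) hP
  beta_reduce at h1
  rw [map_sum, map_sum, map_zero, map_zero] at h1
  have h2 : ∑ t, algebraMap E (FF E) (c t) * ∏ t' ∈ Finset.univ.erase t, io E (b t').prod = 0 := by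
    rw [← h1]
    refine Finset.sum_congr rfl fun t _ => ?_
    rw [map_mul, map_mul, aeval_C, map_prod, map_prod]
    congr 1
    refine Finset.prod_congr rfl fun t' _ => ?_
    rw [hlist2 _ (hb t')]
  have h3 : ∀ t, io E (b t).prod ≠ 0 := by
    intro t h0
    refine hne _ (hb t) ?_
    exact (IsFractionRing.injective (MvPolynomial ℕ E) (FF E)) (by rw [map_zero]; exact h0)
  have h4 := sum_inv_mul_prod (fun t => io E (b t).prod) (fun t => algebraMap E (FF E) (c t)) h3
  rw [h2] at h4
  have h5 := (mul_eq_zero.1 h4).resolve_left (Finset.prod_ne_zero_iff.2 fun t _ => h3 t)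
  rw [← h5]
  exact Finset.sum_congr rfl fun t _ => Algebra.smul_def _ _

end Pool.Agent.PW.H26
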