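import Pool.Agent.Helper26_PW.Alg
import Pool.Agent.PW.Defs

/-!
# Squad PW (`MP_b2b50d_lc`): a generic point of a robust space
-/

set_option autoImplicit false

namespace Pool.Agent.PW.H26

open MvPolynomial

open Pool.Agent.RS (FF io)

section split

variable {E : Type} [Field E]

/-- Put `x_i = 0` for `i ∉ S`. -/
noncomputable def keep (S : Finset ℕ) : MvPolynomial ℕ E →ₐ[E] MvPolynomial ℕ E :=
  aeval fun i => if i ∈ S then X i else 0

/-- Put `x_i = 0` for `i ∈ S`. -/
noncomputable def kill (S : Finset ℕ) : MvPolynomial ℕ E →ₐ[E] MvPolynomial ℕ E :=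
  aeval fun i => if i ∈ S then 0 else X i

theorem keep_monomial (S : Finset ℕ) (m : ℕ →₀ ℕ) (c : E) :
    keep S (monomial m c) = if m.support ⊆ S then monomial m c else 0 := by
  classical
  rw [keep, aeval_monomial, algebraMap_eq]
  split_ifs with h
  · rw [monomial_eq]
    congr 1
    refine Finset.prod_congr rfl fun i hi => ?_
    simp only
    rw [if_pos (h hi)]
  · rw [Finset.not_subset] at h
    obtain ⟨i, hi, hiS⟩ := h
    have h1 : (m.prod fun i k => (if i ∈ S then X i else (0 : MvPolynomial ℕ E)) ^ k) = 0 := by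
      refine Finset.prod_eq_zero hi ?_
      beta_reduce
      rw [if_neg hiS, zero_pow (Finsupp.mem_support_iff.1 hi)]
    rw [h1, mul_zero]

theorem kill_monomial (S : Finset ℕ) (m : ℕ →₀ ℕ) (c : E) :
    kill S (monomial m c) = if Disjoint m.support S then monomial m c else 0 := by
  classical
  rw [kill, aeval_monomial, algebraMap_eq]
  split_ifs with h
  · rw [monomial_eq]
    congr 1
    refine Finset.prod_congr rfl fun i hi => ?_
    simp only
    rw [if_neg (Finset.disjoint_left.1 h hi)]
  · rw [Finset.not_disjoint_iff] at h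
    obtain ⟨i, hi, hiS⟩ := h
    have h1 : (m.prod fun i k => (if i ∈ S then (0 : MvPolynomial ℕ E) else X i) ^ k) = 0 := by
      refine Finset.prod_eq_zero hi ?_
      beta_reduce
      rw [if_pos hiS, zero_pow (Finsupp.mem_support_iff.1 hi)]
    rw [h1, mul_zero]

/-- SPL.  A polynomial without mixed derivatives between `S` and its complement is a sum of a
polynomial in `x_S` and a polynomial in the other variables. -/
theorem split [CharZero E] (S : Finset ℕ) (f : MvPolynomial ℕ E)
    (h : ∀ i ∈ S, ∀ j, j ∉ S → pderiv i (pderiv j f) = 0) :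
    f = keep S f - C (constantCoeff f) + kill S f := by
  classical
  have hm : ∀ m ∈ f.support, m.support ⊆ S ∨ Disjoint m.support S := by
    intro m hm
    by_contra hcon
    push Not at hcon
    obtain ⟨h1, h2⟩ := hcon
    rw [Finset.not_subset] at h1
    rw [Finset.not_disjoint_iff] at h2
    obtain ⟨j, hj, hjS⟩ := h1
    obtain ⟨i, hi, hiS⟩ := h2
    have hij : i ≠ j := fun h3 => hjS (h3 ▸ hiS)
    have h4 := congrArg (coeff (m - Finsupp.single i 1 - Finsupp.single j 1)) (h i hiS j hjS)
    have hi1 : 1 ≤ m i := Nat.one_le_iff_ne_zero.2 (Finsupp.mem_support_iff.1 hi)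
    have hj1 : 1 ≤ m j := Nat.one_le_iff_ne_zero.2 (Finsupp.mem_support_iff.1 hj)
    have e1 : m - Finsupp.single i 1 - Finsupp.single j 1 + Finsupp.single i 1 +
        Finsupp.single j 1 = m := by
      ext l
      simp only [Finsupp.coe_add, Finsupp.coe_tsub, Pi.add_apply, Pi.sub_apply,
        Finsupp.single_apply]
      by_cases h5 : i = l
      · subst h5
        rw [if_pos rfl, if_neg (Ne.symm hij)]
        omega
      · by_cases h6 : j = l
        · subst h6
          rw [if_neg h5, if_pos rfl]
          omega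
        · rw [if_neg h5, if_neg h6]
          omega
    rw [coeff_pderiv, coeff_pderiv, e1, coeff_zero] at h4
    rcases mul_eq_zero.1 h4 with h5 | h5
    · rcases mul_eq_zero.1 h5 with h6 | h6
      · exact (mem_support_iff.1 hm) h6
      · exact (Nat.cast_add_one_ne_zero _) h6
    · exact (Nat.cast_add_one_ne_zero _) h5
  have key : ∀ m ∈ f.support, monomial m (coeff m f) = keep S (monomial m (coeff m f)) -
      C (constantCoeff (monomial m (coeff m f))) + kill S (monomial m (coeff m f)) := by
    intro m hms
    rw [keep_monomial, kill_monomial, constantCoeff_monomial]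
    by_cases h0 : m = 0
    · subst h0
      simp
    · rw [if_neg h0, C_0, sub_zero]
      rcases hm m hms with h1 | h1
      · rw [if_pos h1, if_neg, add_zero]
        intro h2
        apply h0
        have h3 : m.support ⊆ ∅ := by
          intro i hi
          exact absurd (h1 hi) (Finset.disjoint_left.1 h2 hi)
        rw [← Finsupp.support_eq_empty]
        exact Finset.subset_empty.1 h3
      · rw [if_pos h1, if_neg, zero_add]
        intro h2
        apply h0
        have h3 : m.support ⊆ ∅ := by
          intro i hi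
          exact absurd (h2 hi) (Finset.disjoint_left.1 h1 hi)
        rw [← Finsupp.support_eq_empty]
        exact Finset.subset_empty.1 h3
  conv_lhs => rw [f.as_sum]
  rw [Finset.sum_congr rfl key, Finset.sum_add_distrib, Finset.sum_sub_distrib]
  conv_rhs => rw [f.as_sum]
  simp only [map_sum]

theorem pderiv_kill (S : Finset ℕ) (i : ℕ) (hi : i ∈ S) (f : MvPolynomial ℕ E) :
    pderiv i (kill S f) = 0 := by
  classical
  induction f using MvPolynomial.induction_on with
  | C a => rw [kill, aeval_C, algebraMap_eq, pderiv_C]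
  | add p q hp hq => rw [map_add, map_add, hp, hq, add_zero]
  | mul_X p n hp =>
    rw [map_mul, Derivation.leibniz, hp, smul_zero, add_zero]
    have h1 : pderiv i (kill S (X n) : MvPolynomial ℕ E) = 0 := by
      rw [kill, aeval_X]
      split_ifs with hn
      · exact map_zero _
      · rw [pderiv_X_of_ne]
        rintro rfl
        exact hn hi
    rw [h1, smul_zero]

theorem pderiv_keep (S : Finset ℕ) (i : ℕ) (hi : i ∈ S) (f : MvPolynomial ℕ E) :
    pderiv i (keep S f) = keep S (pderiv i f) := by
  classical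
  induction f using MvPolynomial.induction_on with
  | C a => rw [keep, aeval_C, algebraMap_eq, pderiv_C, map_zero]
  | add p q hp hq => rw [map_add, map_add, hp, hq, map_add, map_add]
  | mul_X p n hp =>
    rw [map_mul, Derivation.leibniz, hp, Derivation.leibniz, map_add, smul_eq_mul, smul_eq_mul,
      smul_eq_mul, smul_eq_mul, map_mul, map_mul]
    have h1 : pderiv i (keep S (X n) : MvPolynomial ℕ E) =
        keep S (pderiv i (X n : MvPolynomial ℕ E)) := by
      by_cases hin : i = n
      · subst hin
        rw [keep, aeval_X, if_pos hi, pderiv_X_self, map_one]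
      · rw [pderiv_X_of_ne (Ne.symm hin), map_zero, keep, aeval_X]
        split_ifs with hn
        · exact pderiv_X_of_ne (Ne.symm hin)
        · exact map_zero _
    rw [h1]

/-- A polynomial whose derivatives outside `S` vanish does not change. -/
theorem keep_eq_self [CharZero E] (S : Finset ℕ) (f : MvPolynomial ℕ E)
    (h : ∀ j, j ∉ S → pderiv j f = 0) : keep S f = f := by
  classical
  have hm : ∀ m ∈ f.support, m.support ⊆ S := by
    intro m hm i hi
    by_contra hiS
    have h4 := congrArg (coeff (m - Finsupp.single i 1)) (h i hiS)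
    have hi1 : 1 ≤ m i := Nat.one_le_iff_ne_zero.2 (Finsupp.mem_support_iff.1 hi)
    have e1 : m - Finsupp.single i 1 + Finsupp.single i 1 = m := by
      rw [tsub_add_cancel_of_le]
      rw [Finsupp.single_le_iff]
      exact hi1
    rw [coeff_pderiv, e1, coeff_zero] at h4
    rcases mul_eq_zero.1 h4 with h5 | h5
    · exact (mem_support_iff.1 hm) h5
    · exact (Nat.cast_add_one_ne_zero _) h5
  conv_lhs => rw [f.as_sum]
  conv_rhs => rw [f.as_sum]
  rw [map_sum]
  refine Finset.sum_congr rfl fun m hms => ?_
  rw [keep_monomial, if_pos (hm m hms)]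

end split

section point

variable {E D : Type} [Field E] [CommRing D] [Algebra E D]

/-- `rename z` after its left inverse is `keep (image z)`. -/
theorem rename_killCompl {ρ : ℕ} (z : Fin ρ → ℕ) (hz : Function.Injective z)
    (f : MvPolynomial ℕ E) : rename z (killCompl hz f) = keep (Finset.univ.image z) f := by
  classical
  have h : (rename z).comp (killCompl hz) = keep (E := E) (Finset.univ.image z) := by
    refine algHom_ext fun i => ?_
    rw [AlgHom.comp_apply, killCompl, aeval_X, keep, aeval_X]
    by_cases hi : i ∈ Set.range z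
    · have hi2 : i ∈ Finset.univ.image z := by
        obtain ⟨b, rfl⟩ := hi
        exact Finset.mem_image_of_mem z (Finset.mem_univ b)
      rw [dif_pos hi, if_pos hi2, rename_X]
      congr 1
      exact congrArg Subtype.val ((Equiv.ofInjective z hz).apply_symm_apply ⟨i, hi⟩)
    · have hi2 : i ∉ Finset.univ.image z := by
        intro h2
        obtain ⟨b, -, hb⟩ := Finset.mem_image.1 h2
        exact hi ⟨b, hb⟩
      rw [dif_neg hi, if_neg hi2, map_zero]
  exact AlgHom.congr_fun h f

theorem pderiv_keep_of_notMem (S : Finset ℕ) (i : ℕ) (hi : i ∉ S) (f : MvPolynomial ℕ E) :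
    pderiv i (keep S f) = 0 := by
  classical
  induction f using MvPolynomial.induction_on with
  | C a => rw [keep, aeval_C, algebraMap_eq, pderiv_C]
  | add p q hp hq => rw [map_add, map_add, hp, hq, add_zero]
  | mul_X p n hp =>
    rw [map_mul, Derivation.leibniz, hp, smul_zero, add_zero]
    have h1 : pderiv i (keep S (X n) : MvPolynomial ℕ E) = 0 := by
      rw [keep, aeval_X]
      split_ifs with hn
      · rw [pderiv_X_of_ne]
        rintro rfl
        exact hi hn
      · exact map_zero _
    rw [h1, smul_zero]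

/-- The part of `y` in the pivot variables, and the decomposition. -/
theorem decompose [CharZero E] {ρ : ℕ} (z : Fin ρ → ℕ) (hz : Function.Injective z)
    (G : Finset ℕ) (hzG : ∀ b, z b ∉ G) (y : MvPolynomial ℕ E) (hy : IsUG G y) :
    y = rename z (killCompl hz y - C (constantCoeff y)) + kill (Finset.univ.image z) y := by
  classical
  rw [map_sub, rename_C, rename_killCompl]
  refine split _ _ fun i hi j hj => hy i j ?_ (Or.inl ?_)
  · rintro rfl
    exact hj hi
  · obtain ⟨b, -, rfl⟩ := Finset.mem_image.1 hi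
    exact hzG b

/-- The polynomials in the pivot variables are algebraically independent. -/
theorem independent_pivot [CharZero E] {ρ : ℕ} (y : Fin ρ → MvPolynomial ℕ E) (z : Fin ρ → ℕ)
    (hz : Piv y z) (G : Finset ℕ) (hzG : ∀ b, z b ∉ G) (hy : ∀ a, IsUG G (y a)) :
    AlgebraicIndependent E fun a => killCompl hz.1 (y a) - C (constantCoeff (y a)) := by
  classical
  refine Pool.Agent.RS.H82.algebraicIndependent_of_minor _ id fun h0 => hz.2 ?_
  have h1 : VV y z = ((((io E : MvPolynomial ℕ E →+* FF E).comp
      (rename z : MvPolynomial (Fin ρ) E →ₐ[E] MvPolynomial ℕ E).toRingHom).mapMatrix)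
      (Matrix.of fun l i => pderiv (id i)
        (killCompl hz.1 (y l) - C (constantCoeff (y l))))).transpose := by
    ext b a
    change io E (pderiv (z b) (y a)) = io E (rename z (pderiv b _))
    rw [← pderiv_rename hz.1]
    congr 1
    conv_lhs => rw [decompose z hz.1 G hzG (y a) (hy a)]
    rw [map_add, pderiv_kill _ _ (Finset.mem_image_of_mem z (Finset.mem_univ b)), add_zero]
  rw [h1, Matrix.det_transpose, ← RingHom.map_det, h0, map_zero]

/-- The rest of the `y_a` is algebraically independent at the specialisation. -/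
theorem independent_rest [CharZero E] {ρ : ℕ} (y : Fin ρ → MvPolynomial ℕ E) (z : Fin ρ → ℕ)
    (hzi : Function.Injective z) (J G : Finset ℕ) (hzG : ∀ b, z b ∉ G)
    (hy : ∀ a, IsUG G (y a)) (z' : Fin ρ → ℕ) (hz' : Piv y z') (hz'G : ∀ b, z' b ∉ G)
    (hz'z : ∀ b, z' b ∉ Finset.univ.image z) (m : ℕ) (hm : ρ ≤ m) (ζ : ℕ → D)
    (hζ : Free E m ζ) :
    AlgebraicIndependent E fun a => -Ph (E := E) ζ J (kill (Finset.univ.image z) (y a)) := by
  classical
  obtain ⟨π0, hπ1, hπ2⟩ := hζ (Finset.univ.image z') (Finset.card_image_le.trans (by simpa using hm))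
  have hcomp : ∀ f : MvPolynomial ℕ E, aevalTower π0 X (Ph (E := E) ζ J f) =
      keep (J ∪ Finset.univ.image z') f := by
    intro f
    have h : (aevalTower π0 X).comp (Ph (E := E) ζ J) = keep (E := E) (J ∪ Finset.univ.image z') := by
      refine algHom_ext fun i => ?_
      rw [AlgHom.comp_apply, Ph, aeval_X, keep, aeval_X]
      by_cases h1 : i ∈ J
      · rw [if_pos h1, if_pos (Finset.mem_union_left _ h1), aevalTower_X]
      · rw [if_neg h1, aevalTower_C]
        by_cases h2 : i ∈ Finset.univ.image z'
        · rw [if_pos (Finset.mem_union_right _ h2), hπ1 i h2]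
        · rw [if_neg, hπ2 i h2]
          intro h3
          rcases Finset.mem_union.1 h3 with h4 | h4
          · exact h1 h4
          · exact h2 h4
    exact AlgHom.congr_fun h f
  refine independent_of_minor (aevalTower π0 X : MvPolynomial ℕ D →ₐ[E] MvPolynomial ℕ E) _ z'
    fun h0 => hz'.2 ?_
  have h1 : VV y z' = -((((io E : MvPolynomial ℕ E →+* FF E).mapMatrix)
      (Matrix.of fun l i => pderiv (z' i) (aevalTower π0 X
        (-Ph (E := E) ζ J (kill (Finset.univ.image z) (y l)))))).transpose) := by
    ext b a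
    change io E (pderiv (z' b) (y a)) = -io E (pderiv (z' b) _)
    rw [map_neg, map_neg, map_neg, neg_neg, hcomp, pderiv_keep]
    swap
    · exact Finset.mem_union_right _ (Finset.mem_image_of_mem z' (Finset.mem_univ b))
    congr 1
    have h2 : pderiv (z' b) (kill (Finset.univ.image z) (y a)) = pderiv (z' b) (y a) := by
      conv_rhs => rw [decompose z hzi G hzG (y a) (hy a)]
      rw [map_sub, rename_C, rename_killCompl, map_add, map_sub, pderiv_C, sub_zero,
        pderiv_keep_of_notMem _ _ (hz'z b), zero_add]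
    rw [h2]
    symm
    refine keep_eq_self _ _ fun j hj => ?_
    refine hy a j (z' b) ?_ (Or.inr (hz'G b))
    rintro rfl
    exact hj (Finset.mem_union_right _ (Finset.mem_image_of_mem z' (Finset.mem_univ b)))
  rw [h1, Matrix.det_neg, Matrix.det_transpose, ← RingHom.map_det, h0, map_zero, mul_zero]

/-- The point over an algebraically closed field containing the generic point. -/
theorem exists_point_aux [CharZero E] {Om : Type} [Field Om] [IsAlgClosed Om]
    (j : MvPolynomial ℕ D →+* Om) (hj : Function.Injective j)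
    {ρ : ℕ} (y : Fin ρ → MvPolynomial ℕ E) (J1 GM : Finset ℕ) (hGM : GM ⊆ J1)
    (hy : ∀ a, IsUG GM (y a)) (z : Fin ρ → ℕ) (hz : Piv y z) (hzJ : ∀ b, z b ∉ J1)
    (z' : Fin ρ → ℕ) (hz' : Piv y z') (hz'J : ∀ b, z' b ∉ J1 ∪ Finset.univ.image z)
    (m : ℕ) (hm : ρ ≤ m) (ζ : ℕ → D) (hζ : Free E m ζ) :
    ∃ eps' : MvPolynomial ℕ D →+* Om,
      (∀ d, eps' (C d) = j (C d)) ∧ (∀ i, (∀ b, i ≠ z b) → eps' (X i) = j (X i)) ∧
      ∀ a, eps' (Ph ζ (J1 ∪ Finset.univ.image z) (y a)) = 0 := by
  classical
  have hzG : ∀ b, z b ∉ GM := fun b h => hzJ b (hGM h)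
  let alg : Algebra E Om := (j.comp (algebraMap E (MvPolynomial ℕ D))).toAlgebra
  let jE : MvPolynomial ℕ D →ₐ[E] Om := { j with commutes' := fun _ => rfl }
  have hU := independent_pivot y z hz GM hzG hy
  have hf := independent_rest y z hz.1 (J1 ∪ Finset.univ.image z) GM hzG hy z' hz'
    (fun b h => hz'J b (Finset.mem_union_left _ (hGM h)))
    (fun b h => hz'J b (Finset.mem_union_right _ h)) m hm ζ hζ
  have hσ := hf.map' (f := jE) hj
  obtain ⟨ι, -, hι⟩ := exists_embedding (s := Fin ρ) (Fintype.card_fin ρ) _ hU _ hσ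
  let e : MvPolynomial ℕ D →+* Om := eval₂Hom (j.comp C)
    (fun i => if h : ∃ b, z b = i then ι (X h.choose) else j (X i))
  have heC : ∀ d, e (C d) = j (C d) := fun d => eval₂Hom_C _ _ d
  have heX : ∀ i, (∀ b, i ≠ z b) → e (X i) = j (X i) := by
    intro i hi
    have h1 : ¬ ∃ b, z b = i := fun ⟨b, hb⟩ => hi b hb.symm
    change eval₂Hom _ _ (X i) = _
    rw [eval₂Hom_X', dif_neg h1]
  have heZ : ∀ b, e (X (z b)) = ι (X b) := by
    intro b
    have h1 : ∃ b', z b' = z b := ⟨b, rfl⟩
    change eval₂Hom _ _ (X (z b)) = _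
    rw [eval₂Hom_X', dif_pos h1, hz.1 h1.choose_spec]
  refine ⟨e, heC, heX, fun a => ?_⟩
  have hA : ∀ p : MvPolynomial (Fin ρ) E,
      e (Ph ζ (J1 ∪ Finset.univ.image z) (rename z p)) = ι p := by
    intro p
    have h : (e.comp (Ph (E := E) ζ (J1 ∪ Finset.univ.image z)).toRingHom).comp
        (rename z : MvPolynomial (Fin ρ) E →ₐ[E] MvPolynomial ℕ E).toRingHom =
        ι.toRingHom := by
      refine ringHom_ext (fun r => ?_) fun b => ?_
      · change e (Ph (E := E) ζ _ (rename z (C r))) = ι (C r)
        rw [rename_C, Ph, aeval_C]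
        have h1 : ι (C r) = algebraMap E Om r := ι.commutes r
        rw [h1]
        have h2 : algebraMap E (MvPolynomial ℕ D) r = C (algebraMap E D r) := rfl
        rw [h2, heC]
        rfl
      · change e (Ph (E := E) ζ _ (rename z (X b))) = ι (X b)
        rw [rename_X, Ph, aeval_X, if_pos, heZ]
        exact Finset.mem_union_right _ (Finset.mem_image_of_mem z (Finset.mem_univ b))
    exact RingHom.congr_fun h p
  have hB : ∀ p : MvPolynomial ℕ E,
      e (Ph ζ (J1 ∪ Finset.univ.image z) (kill (Finset.univ.image z) p)) =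
      j (Ph ζ (J1 ∪ Finset.univ.image z) (kill (Finset.univ.image z) p)) := by
    intro p
    have h : (e.comp (Ph (E := E) ζ (J1 ∪ Finset.univ.image z)).toRingHom).comp
        (kill (E := E) (Finset.univ.image z)).toRingHom =
        (j.comp (Ph (E := E) ζ (J1 ∪ Finset.univ.image z)).toRingHom).comp
        (kill (E := E) (Finset.univ.image z)).toRingHom := by
      refine ringHom_ext (fun r => ?_) fun i => ?_
      · change e (Ph (E := E) ζ _ (kill _ (C r))) = j (Ph (E := E) ζ _ (kill _ (C r)))
        rw [kill, aeval_C, algebraMap_eq, Ph, aeval_C]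
        exact heC _
      · change e (Ph (E := E) ζ _ (kill _ (X i))) = j (Ph (E := E) ζ _ (kill _ (X i)))
        rw [kill, aeval_X]
        split_ifs with h1
        · rw [map_zero, map_zero, map_zero]
        · rw [Ph, aeval_X]
          split_ifs with h2
          · refine heX i fun b hb => h1 ?_
            rw [hb]
            exact Finset.mem_image_of_mem z (Finset.mem_univ b)
          · exact heC _
    exact RingHom.congr_fun h p
  have h1 := decompose z hz.1 GM hzG (y a) (hy a)
  have h2 : Ph (E := E) ζ (J1 ∪ Finset.univ.image z) (y a) =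
      Ph ζ (J1 ∪ Finset.univ.image z) (rename z (killCompl hz.1 (y a) - C (constantCoeff (y a)))) +
      Ph ζ (J1 ∪ Finset.univ.image z) (kill (Finset.univ.image z) (y a)) := by
    rw [← map_add, ← h1]
  rw [h2, map_add, hA, hB, hι a]
  change j (-_) + j _ = 0
  rw [map_neg, neg_add_cancel]

/-- The point. -/
theorem exists_point {E D : Type} [Field E] [CharZero E] [CommRing D] [IsDomain D] [Algebra E D]
    {ρ : ℕ} (y : Fin ρ → MvPolynomial ℕ E) (J1 GM : Finset ℕ) (hGM : GM ⊆ J1)
    (hy : ∀ a, IsUG GM (y a)) (z : Fin ρ → ℕ) (hz : Piv y z) (hzJ : ∀ b, z b ∉ J1)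
    (z' : Fin ρ → ℕ) (hz' : Piv y z') (hz'J : ∀ b, z' b ∉ J1 ∪ Finset.univ.image z)
    (m : ℕ) (hm : ρ ≤ m) (ζ : ℕ → D) (hζ : Free E m ζ) :
    ∃ (Om : Type) (_ : Field Om) (j eps' : MvPolynomial ℕ D →+* Om), Function.Injective j ∧
      (∀ d, eps' (C d) = j (C d)) ∧ (∀ i, (∀ b, i ≠ z b) → eps' (X i) = j (X i)) ∧
      ∀ a, eps' (Ph ζ (J1 ∪ Finset.univ.image z) (y a)) = 0 := by
  let j0 : FractionRing (MvPolynomial ℕ D) →+* AlgebraicClosure (FractionRing (MvPolynomial ℕ D)) :=
    algebraMap _ _
  have hj0 : Function.Injective j0 := j0.injective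
  let j : MvPolynomial ℕ D →+* AlgebraicClosure (FractionRing (MvPolynomial ℕ D)) :=
    j0.comp (algebraMap (MvPolynomial ℕ D) (FractionRing (MvPolynomial ℕ D)))
  have hj : Function.Injective j := fun a b h =>
    IsFractionRing.injective (MvPolynomial ℕ D) (FractionRing (MvPolynomial ℕ D)) (hj0 h)
  obtain ⟨eps', h1, h2, h3⟩ := exists_point_aux j hj y J1 GM hGM hy z hz hzJ z' hz' hz'J m hm ζ hζ
  exact ⟨_, inferInstance, j, eps', hj, h1, h2, h3⟩

end point

end Pool.Agent.PW.H26
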